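import Pool.Agent.H7.ME.Stmts

/-!
# Board `me17`, row MNT: the cliques meeting a block (copy of the row of the board `ia13`, helper17, helper91)
-/

set_option autoImplicit false

open Finset

namespace Pool.ME7

open Pool.Agent.H23.KT Pool.Agent.H46.KW Pool.KQ Pool.GT7 Pool.GU7 Pool.HZ7 Pool.IA7

theorem mnt_cb {V : Type} [DecidableEq V] {G : SimpleGraph V} {p : ℕ}
    {Q : Fin (p + 4) → Finset V} (hQ : Par G Q) : CB G (un Q) (p + 4) := by
  intro S hS hc
  have h : ∀ u, ∃ j : Fin (p + 4), u ∈ S → u ∈ Q j := by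
    intro u
    by_cases hu : u ∈ S
    · obtain ⟨j, -, hj⟩ := mem_biUnion.1 (hS hu)
      exact ⟨j, fun _ => hj⟩
    · exact ⟨0, fun h => absurd h hu⟩
  choose f hf using h
  have h1 : S.card ≤ (univ : Finset (Fin (p + 4))).card := by
    refine card_le_card_of_injOn f (fun _ _ => by simp) ?_
    intro u hu v hv huv
    by_contra hne
    exact hQ.ind (f u) u (hf u hu) v (huv ▸ hf v hv) (hc hu hv hne)
  rwa [card_univ, Fintype.card_fin] at h1

/-- The total number of missing pairs, from the degrees. -/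
theorem mnt_tot {V : Type} [DecidableEq V] {G : SimpleGraph V} {b : ℕ} {Q : Fin b → Finset V}
    (hQ : Par G Q) (σ : Fin b → ℕ) (δ : V → ℕ)
    (hh : ∀ j, ∀ u ∈ Q j, ∑ k ∈ univ.erase j, (non G (Q k) u).card = σ j + δ u) :
    tot G Q = ∑ j, (Q j).card * σ j + ∑ u ∈ un Q, δ u := by
  have h1 : ∑ u ∈ un Q, δ u = ∑ j, ∑ u ∈ Q j, δ u := by
    unfold un
    exact Finset.sum_biUnion (fun i _ j _ hij => hQ.dis i j hij)
  rw [h1, ← Finset.sum_add_distrib]
  unfold tot
  apply Finset.sum_congr rfl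
  intro j _
  rw [Finset.sum_comm, Finset.sum_congr rfl (fun u hu => hh j u hu), Finset.sum_add_distrib,
    Finset.sum_const, smul_eq_mul]

theorem mnt_thm (h1 : PWTStmt) (h2 : DLCStmt) (h3 : KBTStmt) (h4 : CRTStmt) (h5 : CQTStmt)
    (h6 : CSTStmt) (h7 : AUGStmt) (h8 : MODStmt) (h9 : NTSStmt) : MNTStmt := by
  intro p w r hpr C hC
  have hz : PrZ p r := (h1 p w r hpr).1
  have hw1 := hpr.w1
  have hwp := hpr.wp
  have hrp := hpr.rp
  have hc1 : 1 ≤ c1 p w := by
    unfold c1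
    exact_mod_cast Nat.choose_pos (show w + 1 ≤ p + 2 by omega)
  obtain ⟨K, hK⟩ := h2 p r hz hpr.p2 C hC
  obtain ⟨K1, hK1, a1, ha1⟩ := h3 p w hw1 hwp C hC
  obtain ⟨K2, hK2, a2, ha2⟩ := h5 p w r hpr hz (K + ⌈C⌉₊)
  obtain ⟨K3, hK3, a3, ha3⟩ := h9 p w r hpr K (K1 + K2) (by positivity)
  obtain ⟨K4, hK4, hcst⟩ := h6 p w r ⌈10 * K3⌉₊ hw1 hrp
  obtain ⟨a5, ha5⟩ := h7 p r hrp ⌈10 * K3⌉₊
  obtain ⟨a6, ha6⟩ := h8 p w hw1 hwp (K + ⌈10 * K3⌉₊ + 1)
  refine ⟨K + a1 + a2 + a3 + a5 + a6 + p + ⌈2 * K4⌉₊ + 1, ?_⟩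
  intro a ha V _ _ G Q hG hQ
  obtain ⟨s, σ, hs1, hsK, hσK, hn, hσr, hcard, hh, hout, hdl, hD⟩ := hK a (by omega) G Q hG hQ
  have haR : (0 : ℝ) ≤ a := Nat.cast_nonneg a
  have hpw : (0 : ℝ) ≤ (a : ℝ) ^ (w + 1) := by positivity
  have hCK : C ≤ ((K + ⌈C⌉₊ : ℕ) : ℝ) := by
    push_cast
    have e1 := Nat.le_ceil C
    have e2 : (0 : ℝ) ≤ K := Nat.cast_nonneg K
    linarith
  have hkbt := ha1 a (by omega) G Q hQ.par hQ.siz hQ.tot
  have hcqt := ha2 a (by omega) G Q σ hG hQ.par (fun j => (hσK j).trans (by omega))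
    (fun j => by
      have := hn j
      omega) hh hout hdl (hD.trans (mul_le_mul_of_nonneg_right hCK haR))
  have htot := mnt_tot hQ.par σ (fun u => dl G p r a (un Q) u) hh
  have hDc : ((∑ u ∈ un Q, dl G p r a (un Q) u : ℕ) : ℝ) =
      ∑ u ∈ un Q, (dl G p r a (un Q) u : ℝ) := by
    push_cast
    rfl
  have hD0 : 0 ≤ ∑ u ∈ un Q, (dl G p r a (un Q) u : ℝ) :=
    sum_nonneg fun _ _ => Nat.cast_nonneg _
  have htotR : (tot G Q : ℝ) = ∑ j, ((sz Q j : ℕ) : ℝ) * σ j +
      ∑ u ∈ un Q, (dl G p r a (un Q) u : ℝ) := by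
    rw [htot]
    push_cast
    rfl
  have hYt : Yt p w a (K1 + K2) (sz Q) σ = (es (sz Q) (w + 3) : ℝ) -
      1 / 2 * c1 p w * (a : ℝ) ^ (w + 1) * ∑ j, ((sz Q j : ℕ) : ℝ) * σ j +
      (K1 + K2) * (a : ℝ) ^ (w + 1) := rfl
  -- the general bound
  have key : (kc G univ (w + 3) : ℝ) - kc G (univ \ un Q) (w + 3) ≤
      Yt p w a (K1 + K2) (sz Q) σ -
        1 / 10 * c1 p w * (a : ℝ) ^ (w + 1) * ∑ u ∈ un Q, (dl G p r a (un Q) u : ℝ) := by
    rw [htotR] at hkbt
    rw [hYt]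
    linarith
  have hne : (un Q).Nonempty := by
    rw [← card_pos, hcard]
    omega
  have hcardle : (un Q).card ≤ (p + 5) * a := by
    rw [hcard]
    have : (p + 5) * a = (p + 3) * a + a + a := by ring
    omega
  refine ⟨hne, hcardle, ?_⟩
  have hnR : (0 : ℝ) ≤ ((((p + 3) * a + r + a + 1 : ℕ)) : ℝ) := Nat.cast_nonneg _
  have hnum := ha3 a (by omega) s hs1 hsK (sz Q) σ hn hσK hσr
  have hx : 0 ≤ 1 / 10 * c1 p w * (a : ℝ) ^ (w + 1) := by positivity
  by_cases hs2 : 2 ≤ s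
  · left
    rw [hcard]
    refine le_trans (mul_le_mul_of_nonneg_right (key.trans ?_) hnR) (hnum.2 hs2)
    have e2 := mul_nonneg hx hD0
    linarith
  · have hs : s = 1 := by omega
    subst hs
    have hnum1 := hnum.1 rfl
    set D := ∑ u ∈ un Q, dl G p r a (un Q) u with hDdef
    have hcz : ∑ z ∈ un Q, (nb G (univ \ un Q) z).card ≤ D := sum_le_sum hout
    by_cases hD1 : D ≤ 1
    · right
      refine ⟨G, fun u _ => (card_le_card ?_).trans (hG.deg u), mnt_cb hQ.par, ?_⟩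
      · intro y hy
        exact (mem_nb G).mpr ⟨mem_univ _, ((mem_nb G).mp hy).2⟩
      · have e1 := (h4 G (un Q) ∅ w ((p + 3) * a + r) hw1 (empty_subset _) hG.deg).2
          (hcz.trans hD1)
        have e2 : (kc G univ (w + 3) : ℝ) ≤ kc G (univ \ un Q) (w + 3) + kc G (un Q) (w + 3) := by
          exact_mod_cast e1
        linarith
    · by_cases hDM : D ≤ ⌈10 * K3⌉₊
      · right
        have hnbS : ∀ u, (nb G (un Q) u).card ≤ (p + 3) * a + r := by
          intro u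
          refine le_trans (Finset.card_le_card ?_) (hG.deg u)
          intro y hy
          exact (mem_nb G).mpr ⟨mem_univ _, ((mem_nb G).mp hy).2⟩
        have hdlD : ∀ u ∈ un Q, dl G p r a (un Q) u ≤ D := fun u hu =>
          single_le_sum (f := fun u => dl G p r a (un Q) u) (fun _ _ => Nat.zero_le _) hu
        obtain ⟨EA, EB, hEA, hEB, hAB, hA5, hdeg⟩ := ha5 a (by omega) G Q σ
          (fun u => dl G p r a (un Q) u) hQ.par hn (by omega) hh (by omega) hDM
        obtain ⟨hP', hdg, hkc⟩ := ha6 a (by omega) G Q EA EB hQ.par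
          (fun j => by
            have e1 := hn j
            have e2 := hσK j
            omega)
          (fun j u hu => by
            rw [hh j u hu]
            have e1 := hσK j
            have e2 := hdlD u (mem_biUnion.2 ⟨j, mem_univ _, hu⟩)
            omega) hEA hEB hAB hA5
        refine ⟨md G EA EB, fun u hu => ?_, mnt_cb hP', ?_⟩
        · have e1 := hdg u hu
          have e2 := hdeg u hu
          have e3 := hnbS u
          unfold dl at e2
          omega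
        · have e1 := hcst a (by omega) G (un Q) hG hout hDM
          have e2 : 2 * K4 ≤ (a : ℝ) := by
            have e3 := Nat.le_ceil (2 * K4)
            have e4 : ((⌈2 * K4⌉₊ : ℕ) : ℝ) ≤ a := by
              have : ⌈2 * K4⌉₊ ≤ a := by omega
              exact_mod_cast this
            linarith
          have e5 : K4 * (a : ℝ) ^ w ≤ 1 / 2 * c1 p w * (a : ℝ) ^ (w + 1) := by
            have e6 : K4 * (a : ℝ) ^ w ≤ (1 / 2 * a) * (a : ℝ) ^ w :=
              mul_le_mul_of_nonneg_right (by linarith) (by positivity)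
            have e7 : (1 / 2 * a) * (a : ℝ) ^ w = 1 / 2 * 1 * (a : ℝ) ^ (w + 1) := by ring
            have e8 : 1 / 2 * 1 * (a : ℝ) ^ (w + 1) ≤ 1 / 2 * c1 p w * (a : ℝ) ^ (w + 1) :=
              mul_le_mul_of_nonneg_right (by linarith) hpw
            linarith
          linarith
      · left
        have hDR : 10 * K3 ≤ (D : ℝ) := by
          have e3 := Nat.le_ceil (10 * K3)
          have e4 : ((⌈10 * K3⌉₊ : ℕ) : ℝ) ≤ D := by
            have : ⌈10 * K3⌉₊ ≤ D := by omega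
            exact_mod_cast this
          linarith
        rw [← hDc] at key
        rw [hcard]
        refine mul_le_mul_of_nonneg_right ?_ hnR
        refine key.trans ?_
        have e1 : 1 / 10 * c1 p w * (a : ℝ) ^ (w + 1) * (10 * K3) ≤
            1 / 10 * c1 p w * (a : ℝ) ^ (w + 1) * (D : ℝ) := mul_le_mul_of_nonneg_left hDR hx
        have e2 : 1 * (K3 * (a : ℝ) ^ (w + 1)) ≤ c1 p w * (K3 * (a : ℝ) ^ (w + 1)) :=
          mul_le_mul_of_nonneg_right hc1 (by positivity)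
        have e3 : 1 / 10 * c1 p w * (a : ℝ) ^ (w + 1) * (10 * K3) =
            c1 p w * (K3 * (a : ℝ) ^ (w + 1)) := by ring
        linarith

end Pool.ME7
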